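import Pool.Agent.P8H41.PK.Trans
import Pool.Agent.H818R2.Kiss4

/-!
# Project PK: permutation codes, assembly
-/

set_option autoImplicit false

open Filter Topology MeasureTheory ProbabilityTheory
open scoped InnerProductSpace
open Pool.Agent.H818R2

namespace Pool.Agent.P8H41.PK

theorem cos_lt_one {θ : ℝ} (hθ : 0 < θ) (hθ2 : θ < Real.pi / 2) : Real.cos θ < 1 := by
  rw [← Real.cos_zero]
  exact Real.cos_lt_cos_of_nonneg_of_le_pi le_rfl (by linarith [Real.pi_pos]) hθ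

/-- the point of the orbit -/
noncomputable def pt {n : ℕ} (v : Fin n → ℝ) (σ : Equiv.Perm (Fin n)) : E n :=
  ‖(WithLp.toLp 2 v : E n)‖⁻¹ • (WithLp.toLp 2 fun i => v (σ i) : E n)

theorem normSq {n : ℕ} (v : Fin n → ℝ) : ‖(WithLp.toLp 2 v : E n)‖ ^ 2 = ∑ i, v i ^ 2 := by
  rw [EuclideanSpace.norm_sq_eq]
  simp

theorem norm_pos {n : ℕ} {v : Fin n → ℝ} (hv : v ≠ 0) : 0 < ‖(WithLp.toLp 2 v : E n)‖ := by
  rw [norm_pos_iff]
  intro h
  apply hv
  funext i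
  have := congrArg (fun z : E n => z i) h
  simpa using this

theorem inner_pt {n : ℕ} (v : Fin n → ℝ) (σ τ : Equiv.Perm (Fin n)) :
    ⟪pt v σ, pt v τ⟫_ℝ = (∑ i, v (σ i) * v (τ i)) / ‖(WithLp.toLp 2 v : E n)‖ ^ 2 := by
  unfold pt
  rw [inner_smul_left, inner_smul_right]
  have h1 : ⟪(WithLp.toLp 2 fun i => v (σ i) : E n), (WithLp.toLp 2 fun i => v (τ i) : E n)⟫_ℝ =
      ∑ i, v (σ i) * v (τ i) := by
    rw [PiLp.inner_apply]
    refine Finset.sum_congr rfl fun i _ => ?_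
    simp [mul_comm]
  rw [h1]
  simp only [conj_trivial]
  ring

theorem norm_pt {n : ℕ} {v : Fin n → ℝ} (hv : v ≠ 0) (σ : Equiv.Perm (Fin n)) : ‖pt v σ‖ = 1 := by
  have h1 := inner_pt v σ σ
  rw [real_inner_self_eq_norm_sq] at h1
  have h2 : ∑ i, v (σ i) * v (σ i) = ∑ i, v i ^ 2 := by
    rw [← Equiv.sum_comp σ fun i => v i ^ 2]
    exact Finset.sum_congr rfl fun i _ => by ring
  rw [h2, ← normSq, div_self (pow_pos (norm_pos hv) 2).ne'] at h1
  have h3 := norm_nonneg (pt v σ)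
  nlinarith

theorem orb_unit {n : ℕ} {v : Fin n → ℝ} (hv : v ≠ 0) : ∀ y ∈ orb v, ‖y‖ = 1 := by
  rintro y ⟨σ, rfl⟩
  exact norm_pt hv σ

/-- sizes of sets of permutations are bounded -/
theorem perm_bdd {n : ℕ} (v : Fin n → ℝ) (s : ℝ) :
    BddAbove {m | ∃ A : Finset (Equiv.Perm (Fin n)), IsPermCode v s A ∧ A.card = m} :=
  ⟨Fintype.card (Equiv.Perm (Fin n)), fun _ ⟨A, _, hA⟩ => hA ▸ Finset.card_le_univ A⟩

theorem codeIn_orb_le {n : ℕ} {v : Fin n → ℝ} (hv : v ≠ 0) (θ : ℝ) :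
    codeIn (orb v) θ ≤ permMax v (Real.cos θ) := by
  classical
  refine csSup_le' ?_
  rintro m ⟨P, hPY, hP, rfl⟩
  have hex : ∀ y : E n, ∃ σ : Equiv.Perm (Fin n), y ∈ P → y = pt v σ := by
    intro y
    by_cases hy : y ∈ P
    · obtain ⟨σ, hσ⟩ := hPY hy
      exact ⟨σ, fun _ => hσ⟩
    · exact ⟨1, fun h => absurd h hy⟩
  choose f hf using hex
  have hinj : Set.InjOn f (P : Set (E n)) := by
    intro y hy z hz h
    rw [hf y hy, hf z hz, h]
  rw [← Finset.card_image_of_injOn hinj]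
  refine le_csSup (perm_bdd v _) ⟨_, ?_, rfl⟩
  intro σ hσ τ hτ hne
  obtain ⟨y, hy, rfl⟩ := Finset.mem_image.1 hσ
  obtain ⟨z, hz, rfl⟩ := Finset.mem_image.1 hτ
  have h1 := hP.2 y hy z hz fun h => hne (by rw [h])
  rw [hf y hy, hf z hz, inner_pt, div_le_iff₀ (pow_pos (norm_pos hv) 2), normSq] at h1
  exact h1

theorem permMax_le {n : ℕ} (hn : 1 ≤ n) {v : Fin n → ℝ} (hv : v ≠ 0) {θ : ℝ} (hθ : 0 < θ)
    (hθ2 : θ < Real.pi / 2) : permMax v (Real.cos θ) ≤ sphMax n θ := by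
  classical
  haveI : NeZero n := ⟨by omega⟩
  refine csSup_le' ?_
  rintro m ⟨A, hA, rfl⟩
  have hin : ∀ σ ∈ A, ∀ τ ∈ A, σ ≠ τ → ⟪pt v σ, pt v τ⟫_ℝ ≤ Real.cos θ := by
    intro σ hσ τ hτ hne
    rw [inner_pt, div_le_iff₀ (pow_pos (norm_pos hv) 2), normSq]
    exact hA σ hσ τ hτ hne
  have hinj : Set.InjOn (pt v) (A : Set (Equiv.Perm (Fin n))) := by
    intro σ hσ τ hτ h
    by_contra hne
    have h1 := hin σ hσ τ hτ hne
    rw [← h, real_inner_self_eq_norm_sq, norm_pt hv] at h1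
    linarith [cos_lt_one hθ hθ2]
  rw [← Finset.card_image_of_injOn hinj]
  refine le_sphMax (sin_pos hθ hθ2) ⟨?_, ?_⟩
  · intro y hy
    obtain ⟨σ, _, rfl⟩ := Finset.mem_image.1 hy
    exact norm_pt hv σ
  · intro y hy z hz hne
    obtain ⟨σ, hσ, rfl⟩ := Finset.mem_image.1 hy
    obtain ⟨τ, hτ, rfl⟩ := Finset.mem_image.1 hz
    exact hin σ hσ τ hτ fun h => hne (by rw [h])

theorem one_le_permMax {n : ℕ} (v : Fin n → ℝ) (s : ℝ) : 1 ≤ permMax v s := by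
  refine le_csSup (perm_bdd v s) ⟨{1}, ?_, rfl⟩
  intro σ hσ τ hτ hne
  rw [Finset.mem_singleton] at hσ hτ
  exact absurd (hσ.trans hτ.symm) hne

/-- scaling does not change the orbit -/
theorem orb_smul {n : ℕ} (v : Fin n → ℝ) {c : ℝ} (hc : 0 < c) : orb (fun i => c * v i) = orb v := by
  have key : ∀ σ : Equiv.Perm (Fin n),
      ‖(WithLp.toLp 2 (fun i => c * v i) : E n)‖⁻¹ • (WithLp.toLp 2 fun i => c * v (σ i) : E n) =
      ‖(WithLp.toLp 2 v : E n)‖⁻¹ • (WithLp.toLp 2 fun i => v (σ i) : E n) := by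
    intro σ
    have e1 : (WithLp.toLp 2 (fun i => c * v i) : E n) = c • (WithLp.toLp 2 v : E n) := by
      ext i; simp
    have e2 : (WithLp.toLp 2 (fun i => c * v (σ i)) : E n) =
        c • (WithLp.toLp 2 (fun i => v (σ i)) : E n) := by
      ext i; simp
    rw [e1, e2, norm_smul, Real.norm_of_nonneg hc.le, smul_smul, mul_inv]
    congr 1
    field_simp
  ext y
  constructor
  · rintro ⟨σ, rfl⟩
    exact ⟨σ, key σ⟩
  · rintro ⟨σ, rfl⟩
    exact ⟨σ, (key σ).symm⟩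

section

variable (hTRANS : S_TRANS) (hPERM : ∀ g : ∀ n : ℕ, Fin n → ℝ, Scores g → ∀ δ : ℝ, 0 < δ →
  ∃ η : ℝ, 0 < η ∧ ∀ᶠ n : ℕ in atTop, ∀ w : Fin n → ℝ, ∑ i, (w i - g n i) ^ 2 ≤ η * n →
    w ≠ 0 ∧ 1 / 2 ≤ frac (orb w) δ)

include hTRANS hPERM

/-- permutations of vectors close to Gaussian scores -/
theorem lower (g : ∀ n : ℕ, Fin n → ℝ) (hg : Scores g) (θ ε : ℝ) (hθ : 0 < θ)
    (hθ2 : θ < Real.pi / 2) (hε : 0 < ε) : ∃ η : ℝ, 0 < η ∧ ∀ᶠ n : ℕ in atTop,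
      ∀ w : Fin n → ℝ, ∑ i, (w i - g n i) ^ 2 ≤ η * n → w ≠ 0 ∧
        (2 : ℝ) ^ (-ε * n) * sphMax n θ ≤ codeIn (orb w) θ := by
  obtain ⟨δ, hδ, hT⟩ := hTRANS θ (ε / 2) hθ hθ2 (by positivity)
  obtain ⟨η, hη, hP⟩ := hPERM g hg δ hδ
  refine ⟨η, hη, ?_⟩
  have hev : ∀ᶠ n : ℕ in atTop, (2 : ℝ) ≤ ((2 : ℝ) ^ (ε / 2)) ^ n := by
    have h3 : (1 : ℝ) < (2 : ℝ) ^ (ε / 2) := Real.one_lt_rpow (by norm_num) (by linarith)
    exact (tendsto_pow_atTop_atTop_of_one_lt h3).eventually_ge_atTop _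
  filter_upwards [hT, hP, hev] with n h1 h2 h3 w hw
  obtain ⟨hw0, hfr⟩ := h2 w hw
  refine ⟨hw0, le_trans ?_ (h1 (orb w) (orb_unit hw0))⟩
  have e1 : (2 : ℝ) ^ (-(ε / 2) * n) = (2 : ℝ) ^ (-ε * n) * ((2 : ℝ) ^ (ε / 2)) ^ n := by
    rw [← Real.rpow_natCast, ← Real.rpow_mul two_pos.le, ← Real.rpow_add two_pos]
    congr 1
    ring
  rw [e1, mul_assoc]
  refine mul_le_mul_of_nonneg_left ?_ (by positivity)
  have hA : (0 : ℝ) ≤ sphMax n θ := Nat.cast_nonneg _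
  calc (sphMax n θ : ℝ) = 2 * (1 / 2 * sphMax n θ) := by ring
    _ ≤ ((2 : ℝ) ^ (ε / 2)) ^ n * (1 / 2 * sphMax n θ) :=
        mul_le_mul_of_nonneg_right h3 (by positivity)
    _ ≤ ((2 : ℝ) ^ (ε / 2)) ^ n * (frac (orb w) δ * sphMax n θ) := by gcongr

theorem scores_rate (g : ∀ n : ℕ, Fin n → ℝ) (hg : Scores g) (θ ε : ℝ) (hθ : 0 < θ)
    (hθ2 : θ < Real.pi / 2) (hε : 0 < ε) : ∀ᶠ n : ℕ in atTop,
      (2 : ℝ) ^ (-ε * n) * sphMax n θ ≤ permMax (g n) (Real.cos θ) ∧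
        permMax (g n) (Real.cos θ) ≤ sphMax n θ := by
  obtain ⟨η, hη, h⟩ := lower hTRANS hPERM g hg θ ε hθ hθ2 hε
  filter_upwards [h, eventually_ge_atTop 1] with n hn hn1
  obtain ⟨h0, h1⟩ := hn (g n) (by simpa using (by positivity : (0 : ℝ) ≤ η * n))
  refine ⟨h1.trans (by exact_mod_cast codeIn_orb_le h0 θ), permMax_le hn1 h0 hθ hθ2⟩

theorem alph_rate (hEX : S_EX) (hALPH : ∀ g : ∀ n : ℕ, Fin n → ℝ, Scores g → ∀ η : ℝ, 0 < η →
      ∃ (K k : ℕ), 1 ≤ K ∧ ∀ᶠ n : ℕ in atTop, ∃ v : Fin n → ℤ, (∀ i, |v i| ≤ k) ∧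
        ∑ i, ((v i : ℝ) / K - g n i) ^ 2 ≤ η * n) (θ ε : ℝ) (hθ : 0 < θ)
    (hθ2 : θ < Real.pi / 2) (hε : 0 < ε) : ∃ k : ℕ, ∀ᶠ n : ℕ in atTop, ∃ v : Fin n → ℤ,
      (∀ i, |v i| ≤ k) ∧ (2 : ℝ) ^ (-ε * n) * sphMax n θ ≤
        permMax (fun i => (v i : ℝ)) (Real.cos θ) ∧
        permMax (fun i => (v i : ℝ)) (Real.cos θ) ≤ sphMax n θ := by
  obtain ⟨g, hg⟩ := hEX
  obtain ⟨η, hη, h⟩ := lower hTRANS hPERM g hg θ ε hθ hθ2 hε
  obtain ⟨K, k, hK, hA⟩ := hALPH g hg η hη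
  have hK0 : (0 : ℝ) < K := by exact_mod_cast hK
  refine ⟨k, ?_⟩
  filter_upwards [h, hA, eventually_ge_atTop 1] with n hn ⟨v, hv1, hv2⟩ hn1
  refine ⟨v, hv1, ?_⟩
  obtain ⟨h0, h1⟩ := hn (fun i => (v i : ℝ) / K) hv2
  have hv0 : (fun i => (v i : ℝ)) ≠ 0 := by
    intro hv
    apply h0
    funext i
    have := congrFun hv i
    simp only [Pi.zero_apply] at this ⊢
    rw [this, zero_div]
  have horb : orb (fun i => (v i : ℝ) / K) = orb (fun i => (v i : ℝ)) := by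
    have := orb_smul (fun i => (v i : ℝ)) (inv_pos.2 hK0)
    rw [← this]
    congr 1
    funext i
    rw [div_eq_inv_mul]
  rw [horb] at h1
  exact ⟨h1.trans (by exact_mod_cast codeIn_orb_le hv0 θ), permMax_le hn1 hv0 hθ hθ2⟩

/-- the exponents -/
theorem exponents (g : ∀ n : ℕ, Fin n → ℝ) (hg : Scores g) (θ : ℝ) (hθ : 0 < θ)
    (hθ2 : θ < Real.pi / 2) :
    liminf (fun n : ℕ => Real.logb 2 (permMax (g n) (Real.cos θ)) / n) atTop =
      liminf (fun n : ℕ => Real.logb 2 (sphMax n θ) / n) atTop ∧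
    limsup (fun n : ℕ => Real.logb 2 (permMax (g n) (Real.cos θ)) / n) atTop =
      limsup (fun n : ℕ => Real.logb 2 (sphMax n θ) / n) atTop := by
  set a : ℕ → ℝ := fun n => Real.logb 2 (permMax (g n) (Real.cos θ)) / n with ha
  have hb : (fun n : ℕ => Real.logb 2 (sphMax n θ) / n) = codeRate θ := rfl
  rw [hb]
  set b : ℕ → ℝ := codeRate θ with hbdef
  have hs := sin_pos hθ hθ2
  have hbl : ∀ n, 0 ≤ b n := codeRate_nonneg θ
  obtain ⟨B, hB⟩ : ∃ B, ∀ n, b n ≤ B := ⟨_, codeRate_le hs⟩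
  have hal : ∀ n, 0 ≤ a n := fun n => div_nonneg (Real.logb_nonneg (by norm_num)
    (by exact_mod_cast one_le_permMax (g n) _)) (Nat.cast_nonneg n)
  have hab : ∀ᶠ n in atTop, a n ≤ b n := by
    filter_upwards [scores_rate hTRANS hPERM g hg θ 1 hθ hθ2 one_pos, eventually_ge_atTop 1]
      with n hn hn1
    have h1 : (0 : ℝ) < permMax (g n) (Real.cos θ) := by
      exact_mod_cast one_le_permMax (g n) (Real.cos θ)
    exact div_le_div_of_nonneg_right (Real.logb_le_logb_of_le (by norm_num) h1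
      (by exact_mod_cast hn.2)) (Nat.cast_nonneg n)
  have hba : ∀ ε : ℝ, 0 < ε → ∀ᶠ n in atTop, b n ≤ a n + ε := by
    intro ε hε
    filter_upwards [scores_rate hTRANS hPERM g hg θ ε hθ hθ2 hε, eventually_ge_atTop 1]
      with n hn hn1
    have hn0 : (0 : ℝ) < n := by exact_mod_cast hn1
    have h1 : (0 : ℝ) < permMax (g n) (Real.cos θ) := by
      exact_mod_cast one_le_permMax (g n) (Real.cos θ)
    have h2 : (0 : ℝ) < sphMax n θ := lt_of_lt_of_le h1 (by exact_mod_cast hn.2)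
    have h3 := Real.logb_le_logb_of_le (b := 2) (by norm_num) (by positivity) hn.1
    rw [Real.logb_mul (by positivity) h2.ne', Real.logb_rpow (by norm_num) (by norm_num)] at h3
    show Real.logb 2 (sphMax n θ) / n ≤ Real.logb 2 (permMax (g n) (Real.cos θ)) / n + ε
    rw [div_add' _ _ _ hn0.ne']
    exact div_le_div_of_nonneg_right (by linarith) hn0.le
  have hbb : IsBoundedUnder (· ≤ ·) atTop b := isBoundedUnder_of ⟨B, hB⟩
  have hbb' : IsBoundedUnder (· ≥ ·) atTop b := isBoundedUnder_of ⟨0, hbl⟩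
  have hab' : IsBoundedUnder (· ≥ ·) atTop a := isBoundedUnder_of ⟨0, hal⟩
  have haB : ∀ᶠ n in atTop, a n ≤ B := hab.mono fun n h => h.trans (hB n)
  have haa : IsBoundedUnder (· ≤ ·) atTop a := ⟨B, haB⟩
  constructor
  · apply le_antisymm
    · exact liminf_le_liminf hab hab' hbb.isCoboundedUnder_ge
    · apply le_of_forall_pos_le_add
      intro ε hε
      have h1 : ∀ c < liminf b atTop, c ≤ liminf a atTop + ε := by
        intro c hc
        have h2 := eventually_lt_of_lt_liminf hc hbb'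
        have h3 : c - ε ≤ liminf a atTop := by
          apply le_liminf_of_le haa.isCoboundedUnder_ge
          filter_upwards [h2, hba ε hε] with n hn1 hn2
          linarith
        linarith
      exact le_of_forall_lt_imp_le_of_dense h1
  · apply le_antisymm
    · exact limsup_le_limsup hab hab'.isCoboundedUnder_le hbb
    · apply le_of_forall_pos_le_add
      intro ε hε
      apply le_of_forall_gt_imp_ge_of_dense
      intro c hc
      have h2 := eventually_lt_of_limsup_lt (show limsup a atTop < c - ε by linarith) haa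
      apply limsup_le_of_le hbb'.isCoboundedUnder_le
      filter_upwards [h2, hba ε hε] with n hn1 hn2
      linarith

end

end Pool.Agent.P8H41.PK
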