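import Mathlib
import Pool.Agent.H818R2.KissDefs

/-!
# Project PK (row MP_b5f63d_co, kissing numbers): permutation codes

THEOREM. Let `g_n ∈ ℝⁿ` be vectors of Gaussian scores (the empirical distribution of the coordinates
tends to the standard normal distribution, with the second moment). Then the exponential growth rates
`c_-`, `c_+` of the kissing numbers are the growth rates of the largest sets of permutations
`A ⊆ S_n` with `∑ i, g_n (σ i) g_n (τ i) ≤ 1/2 ∑ i, g_n(i)²` for all `σ ≠ τ` in `A` (independent sets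
of an explicit Cayley graph of `S_n`); the same for all angles `0 < θ < π/2`, and, up to `ε`, for the
permutations of one vector with integral coordinates in `{-k, …, k}`, `k = k(ε)`. It follows from the
transference principle TRANS: every set `Y` of unit vectors contains a code with
`≥ 2^(-εn) μ(Y_δ) A(n,θ)` points, where `μ(Y_δ)` is the normalised measure of the `δ`-neighbourhood.

`A(n,θ) = sphMax n θ` and `IsSphCode` are from the library (`Pool.Agent.H818R2`).
Packages: ROT AVG BAND LLN MATCH CLOSE TAIL EX PERM ALPH. All are independent (what a package needs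
from another one is a hypothesis).
-/

set_option autoImplicit false

open Filter Topology MeasureTheory ProbabilityTheory
open scoped InnerProductSpace
open Pool.Agent.H818R2

namespace Pool.Agent.P8H41.PK

/-- `ℝⁿ` -/
abbrev E (n : ℕ) : Type := EuclideanSpace ℝ (Fin n)

/-- The normalised measure of the `δ`-neighbourhood of the set `Y` of unit vectors on the unit sphere:
the probability that the direction of a standard Gaussian vector `z` has distance `< δ` from an
element of `Y`. -/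
noncomputable def frac {n : ℕ} (Y : Set (E n)) (δ : ℝ) : ℝ :=
  (stdGaussian (E n)).real {z | ∃ y ∈ Y, ‖z - ‖z‖ • y‖ < δ * ‖z‖}

/-- The largest size of a spherical code with angular distance at least `θ` contained in `Y`. -/
noncomputable def codeIn {n : ℕ} (Y : Set (E n)) (θ : ℝ) : ℕ :=
  sSup {m | ∃ P : Finset (E n), (P : Set (E n)) ⊆ Y ∧ IsSphCode n θ P ∧ P.card = m}

/-- `A` is a set of permutations such that the correlation `∑ v(σ i) v(τ i) / ∑ v(i)²` of any two
different elements is at most `s`. -/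
def IsPermCode {n : ℕ} (v : Fin n → ℝ) (s : ℝ) (A : Finset (Equiv.Perm (Fin n))) : Prop :=
  ∀ σ ∈ A, ∀ τ ∈ A, σ ≠ τ → ∑ i, v (σ i) * v (τ i) ≤ s * ∑ i, v i ^ 2

/-- The largest number of permutations with pairwise correlation at most `s`. -/
noncomputable def permMax {n : ℕ} (v : Fin n → ℝ) (s : ℝ) : ℕ :=
  sSup {m | ∃ A : Finset (Equiv.Perm (Fin n)), IsPermCode v s A ∧ A.card = m}

/-- The distribution function of the standard normal distribution. -/
noncomputable def Phi (t : ℝ) : ℝ := (gaussianReal 0 1).real (Set.Iic t)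

/-- The number of coordinates of `x` which are at most `t`. -/
noncomputable def cnt {n : ℕ} (x : Fin n → ℝ) (t : ℝ) : ℝ :=
  ((Finset.univ.filter fun i => x i ≤ t).card : ℝ)

/-- Gaussian scores: the empirical distribution of the coordinates of `g n` tends to the standard
normal distribution, together with the second moment. -/
structure Scores (g : ∀ n : ℕ, Fin n → ℝ) : Prop where
  cdf : ∀ t : ℝ, Tendsto (fun n : ℕ => cnt (g n) t / n) atTop (𝓝 (Phi t))
  sq : Tendsto (fun n : ℕ => (∑ i, g n i ^ 2) / n) atTop (𝓝 1)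

/-- `x²` for `|x| > M`, otherwise zero. -/
noncomputable def tl (M x : ℝ) : ℝ := if |x| ≤ M then 0 else x ^ 2

/-- The permutations of the vector `v`, normalised. -/
def orb {n : ℕ} (v : Fin n → ℝ) : Set (E n) :=
  {y | ∃ σ : Equiv.Perm (Fin n), y = ‖(WithLp.toLp 2 v : E n)‖⁻¹ • (WithLp.toLp 2 fun i => v (σ i) : E n)}

/-- **ROT** (120 lines): average over the rotations.

Proof. If `C` is empty there is nothing to do; otherwise `n ≥ 1`. Let `μ` be the Haar probability
measure of `O(n)` (`Pool.Agent.H892R2.Proj.haarO`, `Pool/Agent/H892R2/Proj/Defs.lean`, `Haar.lean`; the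
matrix `g` acts on `E n` as a linear isometry, or use any other compact group structure). For a unit
vector `x` put `p x = μ {g | g x ∈ O}`. As `O(n)` is transitive on the unit sphere and `μ` is right
invariant (unimodular), `p x = p` does not depend on `x`; and `p (z / ‖z‖) = μ {g | g z ∈ O}` for `z ≠ 0` since
`O` is invariant under positive scalars. By Fubini and `stdGaussian_map` (rotation invariance)
`p = ∫ μ {g | g z ∈ O} dγ(z) = ∫ γ {z | g z ∈ O} dμ(g) = γ(O)` (`γ {0} = 0`: the first coordinate is a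
nondegenerate Gaussian, or `γ` has no atoms). So the mean over `g` of `#{x ∈ C | g x ∈ O}` is
`γ(O) |C|`, and some `g` has at least this number. -/
def S_ROT : Prop := ∀ (n : ℕ) (C : Finset (E n)) (O : Set (E n)), (∀ x ∈ C, ‖x‖ = 1) → IsOpen O →
  (∀ t : ℝ, 0 < t → ∀ z ∈ O, t • z ∈ O) →
  ∃ (U : E n ≃ₗᵢ[ℝ] E n) (C' : Finset (E n)), C' ⊆ C ∧ (∀ x ∈ C', U x ∈ O) ∧
    (stdGaussian (E n)).real O * C.card ≤ C'.card

/-- **AVG** (60 lines): average over the caps. Use `Pool.Agent.N596.KC.cap_vol`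
(`Pool/Agent/N596/KC/Cap.lean`): each cone `cone q x`, `x ∈ P`, has volume at least
`s^n / 2 * vb E`; integrate the number of the `x ∈ P` with `z ∈ cone q x` over the unit ball (compare
`card_le_of_cap` in the same file; `finrank_euclideanSpace_fin`). -/
def S_AVG : Prop := ∀ (n : ℕ) (P : Finset (E n)) (q s ε : ℝ), P.Nonempty → (∀ x ∈ P, ‖x‖ = 1) →
  0 ≤ q → 0 < s → 0 < ε → ε < s → q ^ 2 + s ^ 2 + 7 * ε ≤ 1 → 4 * √(s ^ 2 - ε ^ 2) ^ n ≤ s ^ n →
  ∃ (z : E n) (P' : Finset (E n)), z ≠ 0 ∧ P' ⊆ P ∧ (∀ x ∈ P', q * ‖z‖ < ⟪x, z⟫_ℝ) ∧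
    s ^ n / 2 * P.card ≤ P'.card

/-- **BAND** (120 lines): codes in a cap of radius `arccos q < π / 2` are not larger than codes with a
larger angle.

Proof. Put `c = cos θ`, `κ = q ^ 2 (1 - c) / 2`. Choose `h > 0` small and `θ' > θ` with
`cos θ' ≥ c - η`, `η` small, such that `c (2 h + h ^ 2) + η ≤ κ` (and `cos θ' > 0`), `M` with
`M h > 1`. Divide the points `x ≠ e` into the `M` bands `a ≤ ⟪x, e⟫ < a + h`, `a ≥ q`. In a band the
vectors `w_x = x - ⟪x, e⟫ e`, divided by their lengths, are different unit vectors with inner products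
`(⟪x, y⟫ - t u) / √((1 - t²)(1 - u²)) ≤ max 0 ((c - a²) / (1 - (a + h)²)) ≤ cos θ'`, where
`t = ⟪x, e⟫`, `u = ⟪y, e⟫` (if `c - a² > 0` then `c (1 - a²) - (c - a²) = a² (1 - c) ≥ 2 κ`). So each band
has at most `sphMax n θ'` points (`Pool.Agent.H818R2.le_sphMax` in `Pool/Agent/H818R2/Sph.lean`; this needs
`NeZero n`), and the point `e` is one more (`1 ≤ sphMax n θ'`). -/
def S_BAND : Prop := ∀ θ q : ℝ, 0 < θ → θ < Real.pi / 2 → 0 < q → ∃ (θ' : ℝ) (M : ℕ), θ < θ' ∧
  θ' < Real.pi / 2 ∧ ∀ (n : ℕ) (P : Finset (E n)) (e : E n), 1 ≤ n → IsSphCode n θ P → ‖e‖ = 1 →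
    (∀ x ∈ P, q < ⟪x, e⟫_ℝ) → P.card ≤ M * sphMax n θ'

/-- Continuity of the exponents from the right (helper41, from AVG and BAND). -/
def S_CONT : Prop := ∀ θ ε : ℝ, 0 < θ → θ < Real.pi / 2 → 0 < ε → ∃ θ' : ℝ, θ < θ' ∧
  θ' < Real.pi / 2 ∧ ∀ᶠ n : ℕ in atTop, (sphMax n θ : ℝ) ≤ (2 : ℝ) ^ (ε * n) * sphMax n θ'

/-- The transference principle (helper41, from CONT and ROT). -/
def S_TRANS : Prop := ∀ θ ε : ℝ, 0 < θ → θ < Real.pi / 2 → 0 < ε → ∃ δ : ℝ, 0 < δ ∧
  ∀ᶠ n : ℕ in atTop, ∀ Y : Set (E n), (∀ y ∈ Y, ‖y‖ = 1) →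
    (2 : ℝ) ^ (-ε * n) * (frac Y δ * sphMax n θ) ≤ codeIn Y θ

/-- **LLN** (80 lines): the weak law of large numbers for the coordinates of a standard Gaussian vector.
`map_pi_eq_stdGaussian` (`Mathlib/Probability/Distributions/Gaussian/Multivariate.lean`) and Chebyshev's
inequality for the sum of the independent variables `f (x i)` under `Measure.pi` (variance
`n Var f`); `iIndepFun_pi`, `IndepFun.variance_sum`, `meas_ge_le_variance_div_sq`. -/
def S_LLN : Prop := ∀ f : ℝ → ℝ, Measurable f → MemLp f 2 (gaussianReal 0 1) → ∀ ε : ℝ, 0 < ε →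
  Tendsto (fun n : ℕ => (stdGaussian (E n)).real
    {x | ε * n < |∑ i, f (x i) - n * ∫ t, f t ∂(gaussianReal 0 1)|}) atTop (𝓝 0)

/-- **MATCH** (100 lines): matching by sorting.

Proof. Let `a = x ∘ sort x`, `b = g ∘ sort g` be the sorted vectors (`Tuple.sort`, `Tuple.monotone_sort`),
`σ` with `g (σ (sort x j)) = b j`, that is `σ = sort g ∘ (sort x)⁻¹`. For `t ∈ T` the indices `j` with
`a j ≤ t` are the first `cnt x t` ones and those with `b j ≤ t` the first `cnt g t` ones, so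
`a j ≤ t ↔ b j ≤ t` fails for `|cnt x t - cnt g t| ≤ D` indices `j`. -/
def S_MATCH : Prop := ∀ (n : ℕ) (x g : Fin n → ℝ) (T : Finset ℝ) (D : ℝ),
  (∀ t ∈ T, |cnt x t - cnt g t| ≤ D) → ∃ (σ : Equiv.Perm (Fin n)) (B : Finset (Fin n)),
    (B.card : ℝ) ≤ T.card * D ∧ ∀ i ∉ B, ∀ t ∈ T, (x i ≤ t ↔ g (σ i) ≤ t)

/-- **CLOSE** (120 lines): vectors with nearly the same distribution functions are close after a
permutation. Uses MATCH.

Proof. Let `T` be a grid from `-M` to `M` of mesh `≤ √δ`, containing `-M` and `M`, and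
`κ = δ / (8 M² (|T| + 1))`. Take `σ`, `B` from MATCH with `D = 2 κ n`. For `i ∉ B`: if
`-M < x i ≤ M` then `g (σ i)` is in the same cell, `(x i - g (σ i))² ≤ δ`; otherwise both are `≤ -M` or
both are `> M`, and `(x i - g (σ i))² ≤ tl M (x i) + tl M (g (σ i))`. For `i ∈ B`
`(x i - g (σ i))² ≤ 2 x² + 2 g² ≤ 4 M² + 2 tl M (x i) + 2 tl M (g (σ i))`. The sum is at most
`δ n + 4 δ n + 4 M² |T| 2 κ n ≤ 6 δ n`. -/
def S_CLOSE : Prop := S_MATCH → ∀ δ M : ℝ, 0 < δ → 0 < M → ∃ (T : Finset ℝ) (κ : ℝ), 0 < κ ∧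
  ∀ (n : ℕ) (x g : Fin n → ℝ), (∀ t ∈ T, |cnt x t - n * Phi t| ≤ κ * n) →
    (∀ t ∈ T, |cnt g t - n * Phi t| ≤ κ * n) → ∑ i, tl M (x i) ≤ δ * n → ∑ i, tl M (g i) ≤ δ * n →
    ∃ σ : Equiv.Perm (Fin n), ∑ i, (x i - g (σ i)) ^ 2 ≤ 10 * δ * n

/-- **TAIL** (100 lines): the tails of Gaussian scores.

Proof. `∫ x² dγ = 1`, so `∫_{|x| < M₁} x² dγ ≥ 1 - κ / 4` for some `M₁`. A step function `f ≥ 0`, a
linear combination of indicator functions of intervals `(a, b]` in `[-M₁, M₁]`, with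
`f ≤ x²` and `∫ f dγ ≥ 1 - κ / 2` exists; by the convergence of `cnt (g n) t / n` the mean of
`f (g n i)` tends to `∫ f dγ`. For `M ≥ M₁` `tl M x ≤ x² - f x`; the mean of this tends to
`1 - ∫ f dγ ≤ κ / 2`. -/
def S_TAIL : Prop := ∀ g : ∀ n : ℕ, Fin n → ℝ, Scores g → ∀ κ : ℝ, 0 < κ → ∃ M₀ : ℝ, 0 < M₀ ∧
  ∀ M : ℝ, M₀ ≤ M → ∀ᶠ n : ℕ in atTop, ∑ i, tl M (g n i) ≤ κ * n

/-- **EX** (80 lines): Gaussian scores exist. By the strong law of large numbers
(`strong_law_ae_real`) for the coordinates of the infinite product of `gaussianReal 0 1` (or any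
sequence of independent standard Gaussian variables), almost every sequence `ω` satisfies the
convergence for all RATIONAL `t` and for the squares; for real `t` by monotonicity and the
continuity of `Phi`; `g n i = ω i`. (Or directly: `g n i` = the quantile of order `(i + 1/2) / n`.) -/
def S_EX : Prop := ∃ g : ∀ n : ℕ, Fin n → ℝ, Scores g

/-- **PERM** (150 lines): the permutations of a vector close to Gaussian scores are dense in measure
on the sphere. Uses LLN, CLOSE (with MATCH) and TAIL.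

Proof. Let `ρ` be small (depending on `δ`); `M` such that `∫ tl M dγ ≤ ρ / 2` (dominated convergence)
and `∑ tl M (g n i) ≤ ρ n` for large `n` (TAIL). `T`, `κ` from CLOSE (for `ρ`, `M`). By LLN for the
finitely many functions `1_(-∞, t]`, `t ∈ T`, `tl M` and `x²` the probability of `x` with
`|cnt x t - n Phi t| ≤ κ n`, `∑ tl M (x i) ≤ ρ n` and `|∑ x i² - n| ≤ n / 2` is at least `1 / 2` for
large `n`. For such `x` CLOSE gives `σ` with `∑ (x i - g n (σ i))² ≤ 10 ρ n`; with
`∑ (w i - g n i)² ≤ η n` the vector `w ∘ σ` has distance at most `(√(10 ρ) + √η) √n` from `x`, and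
the distance of `x` from `(‖x‖ / ‖w‖) w ∘ σ` is at most twice that, `< δ ‖x‖`, as
`‖x‖ ≥ √(n / 2)` (`n ≥ 1`). (`w ≠ 0` is automatic for small `ρ`, `η`.) -/
def S_PERM : Prop := S_LLN → S_MATCH → S_CLOSE → S_TAIL →
  ∀ g : ∀ n : ℕ, Fin n → ℝ, Scores g → ∀ δ : ℝ, 0 < δ → ∃ η : ℝ, 0 < η ∧ ∀ᶠ n : ℕ in atTop,
    ∀ w : Fin n → ℝ, ∑ i, (w i - g n i) ^ 2 ≤ η * n → w ≠ 0 ∧ 1 / 2 ≤ frac (orb w) δ

/-- **ALPH** (80 lines): finite alphabets. Uses TAIL.

Proof. Take `K ≥ 1` integral with `1 / K² ≤ η / 4` and `∑ tl K (g n i) ≤ (η / 4) n` for large `n`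
(TAIL). Put `v i` = the integral part of `K g n i` if `|g n i| ≤ K`, and `0` otherwise;
`|v i| ≤ K² + 1 = k`. Then `|v i / K - g n i| ≤ 1 / K` in the first case, and
`(0 - g n i)² = tl K (g n i)` in the second. -/
def S_ALPH : Prop := S_TAIL → ∀ g : ∀ n : ℕ, Fin n → ℝ, Scores g → ∀ η : ℝ, 0 < η →
  ∃ (K k : ℕ), 1 ≤ K ∧ ∀ᶠ n : ℕ in atTop, ∃ v : Fin n → ℤ, (∀ i, |v i| ≤ k) ∧
    ∑ i, ((v i : ℝ) / K - g n i) ^ 2 ≤ η * n

end Pool.Agent.P8H41.PK
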