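import Pool.Agent.P8H41.PK.Stm

/-!
# Project PK, tails of Gaussian scores (weak convergence)
-/

set_option autoImplicit false

open Filter Topology MeasureTheory ProbabilityTheory
open Pool.Agent.P8H41.PK
open scoped BoundedContinuousFunction

namespace Pool.Agent.P8H41.PK.Tl

/-- the empirical measure -/
noncomputable def em {n : ℕ} (x : Fin n → ℝ) : Measure ℝ :=
  (n : ENNReal)⁻¹ • ∑ i, Measure.dirac (x i)

instance em_prob {n : ℕ} [NeZero n] (x : Fin n → ℝ) : IsProbabilityMeasure (em x) := ⟨by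
  unfold em
  rw [Measure.smul_apply, Measure.finsetSum_apply]
  simp only [measure_univ, Finset.sum_const, Finset.card_univ, Fintype.card_fin, nsmul_eq_mul,
    mul_one, smul_eq_mul]
  exact ENNReal.inv_mul_cancel (by simp [NeZero.ne n]) (by simp)⟩

theorem em_integral {n : ℕ} (x : Fin n → ℝ) (f : ℝ → ℝ) :
    ∫ t, f t ∂(em x) = (∑ i, f (x i)) / n := by
  unfold em
  rw [integral_smul_measure, integral_finsetSum_measure]
  · simp only [integral_dirac]
    rw [ENNReal.toReal_inv, ENNReal.toReal_natCast, smul_eq_mul, div_eq_inv_mul]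
  · intro i _
    exact integrable_dirac (by simp)

theorem em_Iic {n : ℕ} (x : Fin n → ℝ) (t : ℝ) : (em x).real (Set.Iic t) = cnt x t / n := by
  rw [← integral_indicator_one measurableSet_Iic, em_integral]
  congr 1
  unfold cnt
  simp only [Set.indicator_apply, Set.mem_Iic, Pi.one_apply]
  rw [Finset.sum_boole]

theorem Ioc_real (μ : Measure ℝ) [IsProbabilityMeasure μ] {a b : ℝ} (h : a ≤ b) :
    μ.real (Set.Ioc a b) = μ.real (Set.Iic b) - μ.real (Set.Iic a) := by
  have e : Set.Ioc a b = Set.Iic b \ Set.Iic a := by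
    ext y
    simp only [Set.mem_Ioc, Set.mem_diff, Set.mem_Iic, not_le]
    exact and_comm
  rw [e, measureReal_diff (Set.Iic_subset_Iic.2 h) measurableSet_Iic]

theorem weak (g : ∀ n : ℕ, Fin n → ℝ) (hg : Scores g) (f : ℝ →ᵇ ℝ) :
    Tendsto (fun n : ℕ => (∑ i, f (g n i)) / n) atTop (𝓝 (∫ t, f t ∂(gaussianReal 0 1))) := by
  rw [← tendsto_add_atTop_iff_nat 1]
  let ν : ProbabilityMeasure ℝ := ⟨gaussianReal 0 1, inferInstance⟩
  let μ : ℕ → ProbabilityMeasure ℝ := fun n => ⟨em (g (n + 1)), inferInstance⟩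
  have h : Tendsto μ atTop (𝓝 ν) := by
    refine IsPiSystem.tendsto_probabilityMeasure_of_tendsto_of_mem
      (S := {s | ∃ a b : ℝ, a < b ∧ Set.Ioc a b = s}) ?_ ?_ ?_ ?_
    · have := isPiSystem_Ioc (id : ℝ → ℝ) (id : ℝ → ℝ)
      convert this using 1
      ext s
      simp
    · rintro s ⟨a, b, _, rfl⟩
      exact measurableSet_Ioc
    · intro u hu x hx
      obtain ⟨l, r, hlr, hsub⟩ := mem_nhds_iff_exists_Ioo_subset.1 (hu.mem_nhds hx)
      refine ⟨Set.Ioc l ((x + r) / 2), ⟨l, _, by linarith [hlr.1, hlr.2], rfl⟩,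
        Ioc_mem_nhds hlr.1 (by linarith [hlr.2]), fun y hy => hsub ⟨hy.1, by linarith [hy.2, hlr.2]⟩⟩
    · rintro s ⟨a, b, hab, rfl⟩
      rw [← NNReal.tendsto_coe]
      have e1 : ∀ n, ((μ n (Set.Ioc a b) : NNReal) : ℝ) =
          cnt (g (n + 1)) b / (n + 1 : ℕ) - cnt (g (n + 1)) a / (n + 1 : ℕ) := by
        intro n
        have : ((μ n (Set.Ioc a b) : NNReal) : ℝ) = (em (g (n + 1))).real (Set.Ioc a b) := rfl
        rw [this, Ioc_real _ hab.le, em_Iic, em_Iic]
      have e2 : ((ν (Set.Ioc a b) : NNReal) : ℝ) = Phi b - Phi a := by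
        have : ((ν (Set.Ioc a b) : NNReal) : ℝ) = (gaussianReal 0 1).real (Set.Ioc a b) := rfl
        rw [this, Ioc_real _ hab.le]
        rfl
      simp only [e1, e2]
      exact ((tendsto_add_atTop_iff_nat 1).2 (hg.cdf b)).sub ((tendsto_add_atTop_iff_nat 1).2 (hg.cdf a))
  have h2 := ProbabilityMeasure.tendsto_iff_forall_integral_tendsto.1 h f
  refine h2.congr fun n => ?_
  exact em_integral _ _

/-- the truncated square -/
noncomputable def tr (M : ℝ) : ℝ →ᵇ ℝ :=
  BoundedContinuousFunction.ofNormedAddCommGroup (fun x => min (x ^ 2) (M ^ 2))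
    (by fun_prop) (M ^ 2) (fun x => by
      rw [Real.norm_of_nonneg (by positivity)]
      exact min_le_right _ _)

theorem tr_apply (M x : ℝ) : tr M x = min (x ^ 2) (M ^ 2) := rfl

theorem second_moment : ∫ t, t ^ 2 ∂(gaussianReal 0 1) = 1 := by
  have h := variance_id_gaussianReal (μ := 0) (v := 1)
  rw [variance_eq_sub (memLp_id_gaussianReal' 2 (by simp))] at h
  simp only [id_eq, integral_id_gaussianReal] at h
  simpa using h

theorem sq_int : Integrable (fun t : ℝ => t ^ 2) (gaussianReal 0 1) := by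
  have h := (memLp_id_gaussianReal' (μ := 0) (v := 1) 2 (by simp)).integrable_sq
  simpa using h

theorem tr_int : Tendsto (fun k : ℕ => ∫ t, tr k t ∂(gaussianReal 0 1)) atTop (𝓝 1) := by
  rw [← second_moment]
  refine tendsto_integral_of_dominated_convergence (fun t => t ^ 2) ?_ sq_int ?_ ?_
  · intro k
    exact (tr k).continuous.aestronglyMeasurable
  · intro k
    refine Eventually.of_forall fun t => ?_
    rw [tr_apply, Real.norm_of_nonneg (by positivity)]
    exact min_le_left _ _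
  · refine Eventually.of_forall fun t => ?_
    refine tendsto_const_nhds.congr' ?_
    obtain ⟨k0, hk0⟩ := exists_nat_ge |t|
    filter_upwards [eventually_ge_atTop k0] with k hk
    rw [tr_apply, min_eq_left]
    rw [sq_le_sq, Nat.abs_cast]
    exact hk0.trans (by exact_mod_cast hk)

theorem tail : S_TAIL := by
  intro g hg κ hκ
  have h1 := (tendsto_order.1 tr_int).1 (1 - κ / 4) (by linarith)
  obtain ⟨k, hk, hk1⟩ := (h1.and (eventually_ge_atTop 1)).exists
  have hk0 : (0 : ℝ) < k := by exact_mod_cast hk1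
  refine ⟨2 * k, by positivity, fun M hM => ?_⟩
  have h2 := hg.sq.sub (weak g hg (tr k))
  have h3 := (tendsto_order.1 h2).2 (κ / 2) (by linarith)
  filter_upwards [h3, eventually_ge_atTop 1] with n hn hn1
  have hn0 : (0 : ℝ) < n := by exact_mod_cast hn1
  have h4 : ∀ i, tl M (g n i) ≤ 2 * (g n i ^ 2 - tr k (g n i)) := by
    intro i
    rw [tr_apply]
    unfold tl
    split_ifs with hc
    · have := min_le_left (g n i ^ 2) ((k : ℝ) ^ 2)
      linarith
    · push Not at hc
      have h5 : 2 * (k : ℝ) < |g n i| := lt_of_le_of_lt hM hc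
      have h6 : 4 * (k : ℝ) ^ 2 ≤ g n i ^ 2 := by
        rw [← sq_abs (g n i)]
        nlinarith
      have := min_le_right (g n i ^ 2) ((k : ℝ) ^ 2)
      nlinarith
  have h5 : ∑ i, tl M (g n i) ≤ 2 * (∑ i, g n i ^ 2 - ∑ i, tr k (g n i)) := by
    rw [← Finset.sum_sub_distrib, Finset.mul_sum]
    exact Finset.sum_le_sum fun i _ => h4 i
  have h6 : ∑ i, g n i ^ 2 - ∑ i, tr k (g n i) < κ / 2 * n := by
    rw [← div_lt_iff₀ hn0, sub_div]
    exact hn
  linarith

end Pool.Agent.P8H41.PK.Tl
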