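import Pool.Agent.P8H41.PK.Stm
import Pool.Agent.H818R2.Sph

/-!
# Project PK: continuity of the exponents and the transference principle
-/

set_option autoImplicit false

open Filter Topology MeasureTheory ProbabilityTheory
open scoped InnerProductSpace
open Pool.Agent.H818R2

namespace Pool.Agent.P8H41.PK

theorem sin_pos {θ : ℝ} (h : 0 < θ) (h2 : θ < Real.pi / 2) : 0 < Real.sin (θ / 2) :=
  Real.sin_pos_of_pos_of_lt_pi (by linarith) (by linarith [Real.pi_pos])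

/-- an optimal code -/
theorem exists_opt {n : ℕ} (hn : 1 ≤ n) {θ : ℝ} (h : 0 < θ) (h2 : θ < Real.pi / 2) :
    ∃ P : Finset (E n), IsSphCode n θ P ∧ P.card = sphMax n θ := by
  haveI : NeZero n := ⟨by omega⟩
  exact Nat.sSup_mem (sph_nonempty n θ) (sph_bdd (sin_pos h h2))

/-- CONT -/
theorem cont (hAVG : S_AVG) (hBAND : S_BAND) : S_CONT := by
  intro θ ε hθ hθ2 hε
  set a : ℝ := (2 : ℝ) ^ (-ε / 2) with ha
  have ha0 : 0 < a := Real.rpow_pos_of_pos two_pos _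
  have ha1 : a < 1 := Real.rpow_lt_one_of_one_lt_of_neg (by norm_num) (by linarith)
  set s : ℝ := max a (1 / 2) with hs
  have hs0 : 0 < s := lt_of_lt_of_le ha0 (le_max_left _ _)
  have hs1 : s < 1 := max_lt ha1 (by norm_num)
  set G : ℝ := 1 - s ^ 2 with hG
  have hG0 : 0 < G := by rw [hG]; nlinarith
  set e1 : ℝ := min (G / 14) (s / 2) with he1
  have he10 : 0 < e1 := lt_min (by positivity) (by positivity)
  have he1a : e1 ≤ G / 14 := min_le_left _ _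
  have he1b : e1 ≤ s / 2 := min_le_right _ _
  set q : ℝ := √(G / 2) with hq
  have hq0 : 0 < q := Real.sqrt_pos.2 (by positivity)
  have hq2 : q ^ 2 = G / 2 := Real.sq_sqrt (by positivity)
  obtain ⟨θ', M, h1, h2, hband⟩ := hBAND θ q hθ hθ2 hq0
  refine ⟨θ', h1, h2, ?_⟩
  -- the condition of AVG
  have hsq : 0 < s ^ 2 - e1 ^ 2 := by nlinarith
  have hρ : √(s ^ 2 - e1 ^ 2) / s < 1 := by
    rw [div_lt_one hs0, Real.sqrt_lt' hs0]
    nlinarith
  have hρ0 : 0 ≤ √(s ^ 2 - e1 ^ 2) / s := by positivity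
  have hev1 : ∀ᶠ n : ℕ in atTop, (√(s ^ 2 - e1 ^ 2) / s) ^ n ≤ 1 / 4 := by
    have := tendsto_pow_atTop_nhds_zero_of_lt_one hρ0 hρ
    filter_upwards [this.eventually (gt_mem_nhds (show (0 : ℝ) < 1 / 4 by norm_num))] with n hn
    exact hn.le
  have hev2 : ∀ᶠ n : ℕ in atTop, 2 * (M : ℝ) ≤ ((2 : ℝ) ^ (ε / 2)) ^ n := by
    have h3 : (1 : ℝ) < (2 : ℝ) ^ (ε / 2) := Real.one_lt_rpow (by norm_num) (by linarith)
    exact (tendsto_pow_atTop_atTop_of_one_lt h3).eventually_ge_atTop _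
  filter_upwards [hev1, hev2, eventually_ge_atTop 1] with n hn1 hn2 hn3
  obtain ⟨P, hP, hPc⟩ := exists_opt hn3 hθ hθ2
  rcases P.eq_empty_or_nonempty with hPe | hPne
  · rw [← hPc, hPe]
    simp only [Finset.card_empty, Nat.cast_zero]
    positivity
  obtain ⟨z, P', hz, hsub, hcap, hcard⟩ := hAVG n P q s e1 hPne hP.1 hq0.le hs0 he10
    (by linarith) (by rw [hq2]; linarith) (by
      rw [div_pow, div_le_iff₀ (by positivity)] at hn1
      linarith)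
  have hzn : 0 < ‖z‖ := norm_pos_iff.2 hz
  have hb := hband n P' (‖z‖⁻¹ • z) hn3
    ⟨fun x hx => hP.1 x (hsub hx), fun x hx y hy hxy => hP.2 x (hsub hx) y (hsub hy) hxy⟩
    (by rw [norm_smul, norm_inv, norm_norm, inv_mul_cancel₀ hzn.ne'])
    (fun x hx => by
      rw [inner_smul_right, lt_inv_mul_iff₀ hzn, mul_comm]
      exact hcap x hx)
  have hb' : (P'.card : ℝ) ≤ M * sphMax n θ' := by exact_mod_cast hb
  have hsn : a ^ n ≤ s ^ n := pow_le_pow_left₀ ha0.le (le_max_left _ _) n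
  have hA : (0 : ℝ) ≤ sphMax n θ' := Nat.cast_nonneg _
  rw [hPc] at hcard
  have e1' : a ^ n * ((2 : ℝ) ^ (ε / 2)) ^ n = 1 := by
    rw [← mul_pow, ha, ← Real.rpow_add two_pos]
    rw [show -ε / 2 + ε / 2 = 0 by ring, Real.rpow_zero, one_pow]
  have e2' : (2 : ℝ) ^ (ε * n) = ((2 : ℝ) ^ (ε / 2)) ^ n * ((2 : ℝ) ^ (ε / 2)) ^ n := by
    rw [← mul_pow, ← Real.rpow_add two_pos, ← Real.rpow_natCast, ← Real.rpow_mul two_pos.le]
    congr 1
    ring
  have hb0 : 0 < ((2 : ℝ) ^ (ε / 2)) ^ n := by positivity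
  have h4 : a ^ n / 2 * sphMax n θ ≤ M * sphMax n θ' := by
    have : a ^ n / 2 * (sphMax n θ : ℝ) ≤ s ^ n / 2 * sphMax n θ :=
      mul_le_mul_of_nonneg_right (by linarith) (Nat.cast_nonneg _)
    linarith
  have h5 : (sphMax n θ : ℝ) ≤ ((2 : ℝ) ^ (ε / 2)) ^ n * (2 * M * sphMax n θ') := by
    have h6 := mul_le_mul_of_nonneg_left h4 (show 0 ≤ 2 * ((2 : ℝ) ^ (ε / 2)) ^ n by positivity)
    have e3 : 2 * ((2 : ℝ) ^ (ε / 2)) ^ n * (a ^ n / 2 * sphMax n θ) =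
        (a ^ n * ((2 : ℝ) ^ (ε / 2)) ^ n) * sphMax n θ := by ring
    rw [e3, e1', one_mul] at h6
    linarith
  rw [e2', mul_assoc]
  refine h5.trans (mul_le_mul_of_nonneg_left ?_ hb0.le)
  exact mul_le_mul_of_nonneg_right hn2 hA

/-- the codes in `Y` are bounded -/
theorem codeIn_bdd {n : ℕ} (hn : 1 ≤ n) (Y : Set (E n)) {θ : ℝ} (h : 0 < θ) (h2 : θ < Real.pi / 2) :
    BddAbove {m | ∃ P : Finset (E n), (P : Set (E n)) ⊆ Y ∧ IsSphCode n θ P ∧ P.card = m} := by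
  haveI : NeZero n := ⟨by omega⟩
  obtain ⟨b, hb⟩ := sph_bdd (d := n) (sin_pos h h2)
  exact ⟨b, fun m ⟨P, _, hP, hm⟩ => hb ⟨P, hP, hm⟩⟩

/-- TRANS -/
theorem trans (hCONT : S_CONT) (hROT : S_ROT) : S_TRANS := by
  intro θ ε hθ hθ2 hε
  classical
  obtain ⟨θ', h1, h2, hev⟩ := hCONT θ ε hθ hθ2 hε
  have hcos : Real.cos θ' < Real.cos θ :=
    Real.cos_lt_cos_of_nonneg_of_le_pi hθ.le (by linarith [Real.pi_pos]) h1
  set δ : ℝ := min 1 ((Real.cos θ - Real.cos θ') / 3) with hδ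
  have hδ0 : 0 < δ := lt_min one_pos (by linarith)
  have hδ1 : δ ≤ 1 := min_le_left _ _
  have hδ3 : δ ≤ (Real.cos θ - Real.cos θ') / 3 := min_le_right _ _
  have hcos1 : Real.cos θ < 1 := by
    rw [← Real.cos_zero]
    exact Real.cos_lt_cos_of_nonneg_of_le_pi le_rfl (by linarith [Real.pi_pos]) hθ
  refine ⟨δ, hδ0, ?_⟩
  filter_upwards [hev, eventually_ge_atTop 1] with n hn hn1 Y hY
  obtain ⟨P, hP, hPc⟩ := exists_opt hn1 (hθ.trans h1) h2
  set O : Set (E n) := {z | ∃ y ∈ Y, ‖z - ‖z‖ • y‖ < δ * ‖z‖} with hO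
  have hOo : IsOpen O := by
    have e1 : O = ⋃ y ∈ Y, {z : E n | ‖z - ‖z‖ • y‖ < δ * ‖z‖} := by
      ext z; simp [hO]
    rw [e1]
    refine isOpen_biUnion fun y _ => isOpen_lt ?_ ?_
    · exact (continuous_id.sub (continuous_norm.smul continuous_const)).norm
    · exact continuous_const.mul continuous_norm
  have hOs : ∀ t : ℝ, 0 < t → ∀ z ∈ O, t • z ∈ O := by
    rintro t ht z ⟨y, hy, hz⟩
    refine ⟨y, hy, ?_⟩
    have e1 : t • z - ‖t • z‖ • y = t • (z - ‖z‖ • y) := by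
      rw [norm_smul, Real.norm_of_nonneg ht.le, smul_sub, smul_smul]
    rw [e1, norm_smul, norm_smul, Real.norm_of_nonneg ht.le]
    calc t * ‖z - ‖z‖ • y‖ < t * (δ * ‖z‖) := mul_lt_mul_of_pos_left hz ht
      _ = δ * (t * ‖z‖) := by ring
  obtain ⟨U, C', hsub, hC', hcard⟩ := hROT n P O hP.1 hOo hOs
  have hf : (stdGaussian (E n)).real O = frac Y δ := rfl
  have hy : ∀ x : E n, ∃ y : E n, x ∈ C' → y ∈ Y ∧ ‖U x - y‖ < δ := by
    intro x
    by_cases hx : x ∈ C'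
    · obtain ⟨y, hy, h⟩ := hC' x hx
      rw [U.norm_map, hP.1 x (hsub hx), one_smul, mul_one] at h
      exact ⟨y, fun _ => ⟨hy, h⟩⟩
    · exact ⟨0, fun h => absurd h hx⟩
  choose y hy using hy
  have hinner : ∀ x ∈ C', ∀ x' ∈ C', x ≠ x' → ⟪y x, y x'⟫_ℝ ≤ Real.cos θ := by
    intro x hx x' hx' hne
    obtain ⟨hyY, hyd⟩ := hy x hx
    obtain ⟨hyY', hyd'⟩ := hy x' hx'
    have h3 : ⟪U x, U x'⟫_ℝ ≤ Real.cos θ' := by
      rw [U.inner_map_map]
      exact hP.2 x (hsub hx) x' (hsub hx') hne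
    have e1 : ⟪y x, y x'⟫_ℝ = ⟪U x, U x'⟫_ℝ - ⟪U x - y x, U x'⟫_ℝ - ⟪y x, U x' - y x'⟫_ℝ := by
      rw [inner_sub_left, inner_sub_right]
      ring
    have h4 : |⟪U x - y x, U x'⟫_ℝ| ≤ ‖U x - y x‖ * ‖U x'‖ := abs_real_inner_le_norm _ _
    have h5 : |⟪y x, U x' - y x'⟫_ℝ| ≤ ‖y x‖ * ‖U x' - y x'‖ := abs_real_inner_le_norm _ _
    rw [U.norm_map, hP.1 x' (hsub hx'), mul_one] at h4
    rw [hY _ hyY, one_mul] at h5
    have h6 := neg_abs_le ⟪U x - y x, U x'⟫_ℝ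
    have h7 := neg_abs_le ⟪y x, U x' - y x'⟫_ℝ
    rw [e1]
    linarith
  have hinj : Set.InjOn y (C' : Set (E n)) := by
    intro x hx x' hx' hxx
    by_contra hne
    have h3 := hinner x hx x' hx' hne
    rw [← hxx, real_inner_self_eq_norm_sq, hY _ (hy x hx).1] at h3
    linarith
  have hcode : IsSphCode n θ (C'.image y) := by
    constructor
    · intro u hu
      obtain ⟨x, hx, rfl⟩ := Finset.mem_image.1 hu
      exact hY _ (hy x hx).1
    · intro u hu v hv huv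
      obtain ⟨x, hx, rfl⟩ := Finset.mem_image.1 hu
      obtain ⟨x', hx', rfl⟩ := Finset.mem_image.1 hv
      exact hinner x hx x' hx' fun h => huv (by rw [h])
  have hle : C'.card ≤ codeIn Y θ := by
    rw [← Finset.card_image_of_injOn hinj]
    refine le_csSup (codeIn_bdd hn1 Y hθ hθ2) ⟨_, ?_, hcode, rfl⟩
    intro u hu
    rw [Finset.coe_image] at hu
    obtain ⟨x, hx, rfl⟩ := hu
    exact (hy x hx).1
  have hle' : (C'.card : ℝ) ≤ codeIn Y θ := by exact_mod_cast hle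
  rw [hf, hPc] at hcard
  have hfr : 0 ≤ frac Y δ := measureReal_nonneg
  have e4 : (2 : ℝ) ^ (-ε * n) * (2 : ℝ) ^ (ε * n) = 1 := by
    rw [← Real.rpow_add two_pos, show -ε * n + ε * n = 0 by ring, Real.rpow_zero]
  calc (2 : ℝ) ^ (-ε * n) * (frac Y δ * sphMax n θ)
      ≤ (2 : ℝ) ^ (-ε * n) * (frac Y δ * ((2 : ℝ) ^ (ε * n) * sphMax n θ')) := by gcongr
    _ = ((2 : ℝ) ^ (-ε * n) * (2 : ℝ) ^ (ε * n)) * (frac Y δ * sphMax n θ') := by ring
    _ = frac Y δ * sphMax n θ' := by rw [e4, one_mul]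
    _ ≤ C'.card := hcard
    _ ≤ codeIn Y θ := hle'

end Pool.Agent.P8H41.PK
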